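import Pool.Agent.Helper50.VD.St

open MeasureTheory Set Filter Topology
open scoped ENNReal

noncomputable section

namespace VD.M_F0

/-- Euclidean distances differ by at most the sum of the coordinate differences -/
theorem sqrt_le_add (a b u v : ℝ) :
    Real.sqrt (a ^ 2 + b ^ 2) ≤ Real.sqrt (u ^ 2 + v ^ 2) + (|a - u| + |b - v|) := by
  set d := Real.sqrt (u ^ 2 + v ^ 2) with hd
  have hd0 : 0 ≤ d := Real.sqrt_nonneg _
  have hd2 : d ^ 2 = u ^ 2 + v ^ 2 := Real.sq_sqrt (by positivity)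
  have hu : |u| ≤ d := Real.abs_le_sqrt (by nlinarith [sq_nonneg v])
  have hv : |v| ≤ d := Real.abs_le_sqrt (by nlinarith [sq_nonneg u])
  refine Real.sqrt_le_iff.2 ⟨by positivity, ?_⟩
  have h1 : u * (a - u) ≤ d * |a - u| := by
    calc u * (a - u) ≤ |u * (a - u)| := le_abs_self _
      _ = |u| * |a - u| := abs_mul _ _
      _ ≤ d * |a - u| := mul_le_mul_of_nonneg_right hu (abs_nonneg _)
  have h2 : v * (b - v) ≤ d * |b - v| := by
    calc v * (b - v) ≤ |v * (b - v)| := le_abs_self _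
      _ = |v| * |b - v| := abs_mul _ _
      _ ≤ d * |b - v| := mul_le_mul_of_nonneg_right hv (abs_nonneg _)
  have h3 : (a - u) ^ 2 = |a - u| ^ 2 := (sq_abs _).symm
  have h4 : (b - v) ^ 2 = |b - v| ^ 2 := (sq_abs _).symm
  have h5 : 0 ≤ |a - u| * |b - v| := by positivity
  nlinarith

/-- difference of logarithms -/
theorem log_diff {p q e : ℝ} (hp : 0 < p) (hq : 0 < q) (h : |p - q| ≤ e) :
    |Real.log p - Real.log q| ≤ e * (1 / p + 1 / q) := by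
  have he : 0 ≤ e := (abs_nonneg _).trans h
  have key : ∀ x y : ℝ, 0 < x → 0 < y → |x - y| ≤ e → Real.log x - Real.log y ≤ e * (1 / y) := by
    intro x y hx hy hxy
    rw [← Real.log_div hx.ne' hy.ne']
    have h1 := Real.log_le_sub_one_of_pos (div_pos hx hy)
    have h2 : x / y - 1 = (x - y) * (1 / y) := by field_simp
    rw [h2] at h1
    refine h1.trans (mul_le_mul_of_nonneg_right ((le_abs_self _).trans hxy) (by positivity))
  rw [abs_le]
  have h1 := key p q hp hq h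
  have h2 := key q p hq hp (by rwa [abs_sub_comm])
  have h3 : 0 ≤ e * (1 / p) := by positivity
  have h4 : 0 ≤ e * (1 / q) := by positivity
  constructor <;> linarith [mul_add e (1 / p) (1 / q)]

/-- difference of `log` of squared distances -/
theorem log_sq_diff {a b u v e : ℝ} (h1 : 0 < a ^ 2 + b ^ 2) (h2 : 0 < u ^ 2 + v ^ 2)
    (h3 : |a - u| ≤ e) (h4 : |b - v| ≤ e) :
    |Real.log (a ^ 2 + b ^ 2) - Real.log (u ^ 2 + v ^ 2)| ≤
      4 * e * (1 / Real.sqrt (a ^ 2 + b ^ 2) + 1 / Real.sqrt (u ^ 2 + v ^ 2)) := by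
  have hp := Real.sqrt_pos.2 h1
  have hq := Real.sqrt_pos.2 h2
  have h5 : |Real.sqrt (a ^ 2 + b ^ 2) - Real.sqrt (u ^ 2 + v ^ 2)| ≤ 2 * e := by
    rw [abs_le]
    have e1 := sqrt_le_add a b u v
    have e2 := sqrt_le_add u v a b
    rw [abs_sub_comm u a, abs_sub_comm v b] at e2
    constructor <;> linarith
  have h6 := log_diff hp hq h5
  have e1 : Real.log (a ^ 2 + b ^ 2) = 2 * Real.log (Real.sqrt (a ^ 2 + b ^ 2)) := by
    rw [Real.log_sqrt h1.le]; ring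
  have e2 : Real.log (u ^ 2 + v ^ 2) = 2 * Real.log (Real.sqrt (u ^ 2 + v ^ 2)) := by
    rw [Real.log_sqrt h2.le]; ring
  rw [e1, e2, ← mul_sub, abs_mul, abs_two]
  linarith

/-- `z.2 * N z y = G z y` -/
theorem mul_N (z y : ℝ × ℝ) : z.2 * N z y = G z y := by
  unfold N
  split_ifs with h
  · rw [h, zero_mul]
    unfold G
    rw [h]
    have : (z.1 - y.1) ^ 2 + (0 + y.2) ^ 2 = (z.1 - y.1) ^ 2 + (0 - y.2) ^ 2 := by ring
    rw [this]
    by_cases h0 : (z.1 - y.1) ^ 2 + (0 - y.2) ^ 2 = 0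
    · rw [h0]; simp
    · rw [div_self h0]; simp
  · field_simp

/-- one dimensional majorant -/
def g1 (R : ℝ) : ℝ → ℝ := (Ioc 0 R).indicator fun x => x ^ (-(1 / 2) : ℝ)

def h1 (R : ℝ) (a : ℝ) : ℝ := g1 R a + g1 R (-a)

theorem g1_nonneg (R a : ℝ) : 0 ≤ g1 R a := by
  unfold g1
  refine indicator_nonneg (fun x hx => Real.rpow_nonneg hx.1.le _) a

theorem h1_nonneg (R a : ℝ) : 0 ≤ h1 R a := add_nonneg (g1_nonneg _ _) (g1_nonneg _ _)

theorem g1_int {R : ℝ} (hR : 0 ≤ R) : Integrable (g1 R) := by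
  unfold g1
  rw [integrable_indicator_iff measurableSet_Ioc]
  have := intervalIntegral.intervalIntegrable_rpow' (a := 0) (b := R) (r := (-(1 / 2) : ℝ))
    (by norm_num)
  rwa [intervalIntegrable_iff_integrableOn_Ioc_of_le hR] at this

theorem h1_int {R : ℝ} (hR : 0 ≤ R) : Integrable (h1 R) := (g1_int hR).add (g1_int hR).comp_neg

theorem h1_eq {R a : ℝ} (h0 : a ≠ 0) (h : |a| ≤ R) : h1 R a = (Real.sqrt |a|)⁻¹ := by
  have hpow : ∀ x : ℝ, 0 < x → x ^ (-(1 / 2) : ℝ) = (Real.sqrt x)⁻¹ := by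
    intro x hx
    rw [Real.rpow_neg hx.le, Real.sqrt_eq_rpow]
  unfold h1 g1
  rcases lt_or_gt_of_ne h0 with hn | hp
  · rw [abs_of_neg hn] at h ⊢
    rw [indicator_of_notMem (fun hh => absurd hh.1 (not_lt.2 hn.le)),
      indicator_of_mem (show -a ∈ Ioc 0 R from ⟨by linarith, h⟩), zero_add, hpow _ (by linarith)]
  · rw [abs_of_pos hp] at h ⊢
    rw [indicator_of_mem (show a ∈ Ioc 0 R from ⟨hp, h⟩),
      indicator_of_notMem (fun hh => absurd hh.1 (not_lt.2 (by linarith))), add_zero, hpow _ hp]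

/-- two dimensional majorant -/
def B1 (R : ℝ) (z y : ℝ × ℝ) : ℝ := h1 R (z.1 - y.1) * h1 R (z.2 - y.2)

theorem B1_nonneg (R : ℝ) (z y : ℝ × ℝ) : 0 ≤ B1 R z y := mul_nonneg (h1_nonneg _ _) (h1_nonneg _ _)

theorem B1_int {R : ℝ} (hR : 0 ≤ R) (z : ℝ × ℝ) : Integrable (B1 R z) := by
  have := (h1_int hR).comp_sub_left z.1
  have h2 := (h1_int hR).comp_sub_left z.2
  exact this.mul_prod h2

theorem B1_integral {R : ℝ} (z : ℝ × ℝ) :
    ∫ y, B1 R z y = (∫ a, h1 R a) ^ 2 := by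
  have h := integral_prod_mul (μ := (volume : Measure ℝ)) (ν := (volume : Measure ℝ))
    (fun a => h1 R (z.1 - a)) (fun a => h1 R (z.2 - a))
  rw [integral_sub_left_eq_self (fun a => h1 R a) volume z.1,
    integral_sub_left_eq_self (fun a => h1 R a) volume z.2] at h
  rw [sq, ← h]
  rfl

/-- `1/|z - y|` is at most the majorant -/
theorem inv_le {R : ℝ} {z y : ℝ × ℝ} (h1' : z.1 - y.1 ≠ 0) (h2' : z.2 - y.2 ≠ 0)
    (h3 : |z.1 - y.1| ≤ R) (h4 : |z.2 - y.2| ≤ R) :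
    1 / Real.sqrt ((z.1 - y.1) ^ 2 + (z.2 - y.2) ^ 2) ≤ B1 R z y := by
  unfold B1
  rw [h1_eq h1' h3, h1_eq h2' h4, ← mul_inv, ← Real.sqrt_mul (abs_nonneg _), one_div]
  have hp : 0 < |z.1 - y.1| * |z.2 - y.2| := mul_pos (abs_pos.2 h1') (abs_pos.2 h2')
  refine inv_anti₀ (Real.sqrt_pos.2 hp) (Real.sqrt_le_sqrt ?_)
  have e1 := sq_abs (z.1 - y.1)
  have e2 := sq_abs (z.2 - y.2)
  nlinarith [sq_nonneg (|z.1 - y.1| - |z.2 - y.2|)]

/-- pointwise difference -/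
theorem G_diff {n : ℝ} {z z' y : ℝ × ℝ}
    (hz1 : |z.1| ≤ n) (hz2 : 0 ≤ z.2) (hz3 : z.2 ≤ n)
    (hz1' : |z'.1| ≤ n) (hz2' : 0 ≤ z'.2) (hz3' : z'.2 ≤ n)
    (hy1 : |y.1| ≤ n) (hy2 : 0 < y.2) (hy3 : y.2 ≤ n)
    (h1' : z.1 - y.1 ≠ 0) (h2' : z.2 - y.2 ≠ 0) (h3' : z'.1 - y.1 ≠ 0) (h4' : z'.2 - y.2 ≠ 0) :
    |G z y - G z' y| ≤ (2 / Real.pi) * ‖z - z'‖ * (B1 (2 * n) z y + B1 (2 * n) z' y) := by
  set e := ‖z - z'‖ with he
  have he1 : |z.1 - z'.1| ≤ e := by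
    have := norm_fst_le (z - z')
    rwa [Real.norm_eq_abs] at this
  have he2 : |z.2 - z'.2| ≤ e := by
    have := norm_snd_le (z - z')
    rwa [Real.norm_eq_abs] at this
  have he0 : 0 ≤ e := norm_nonneg _
  have sub_le : ∀ {a b c : ℝ}, |a| ≤ c → |b| ≤ c → |a - b| ≤ 2 * c := by
    intro a b c ha hb
    have := abs_sub a b
    linarith
  have hb1 : 1 / Real.sqrt ((z.1 - y.1) ^ 2 + (z.2 - y.2) ^ 2) ≤ B1 (2 * n) z y :=
    inv_le h1' h2' (sub_le hz1 hy1)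
      (sub_le (by rwa [abs_of_nonneg hz2]) (by rwa [abs_of_pos hy2]))
  have hb2 : 1 / Real.sqrt ((z'.1 - y.1) ^ 2 + (z'.2 - y.2) ^ 2) ≤ B1 (2 * n) z' y :=
    inv_le h3' h4' (sub_le hz1' hy1)
      (sub_le (by rwa [abs_of_nonneg hz2']) (by rwa [abs_of_pos hy2]))
  have p1 : 0 < (z.1 - y.1) ^ 2 := by positivity
  have p2 : 0 < (z'.1 - y.1) ^ 2 := by positivity
  have q1 : 0 < (z.1 - y.1) ^ 2 + (z.2 - y.2) ^ 2 := by positivity
  have q2 : 0 < (z'.1 - y.1) ^ 2 + (z'.2 - y.2) ^ 2 := by positivity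
  have q3 : 0 < (z.1 - y.1) ^ 2 + (z.2 + y.2) ^ 2 := by positivity
  have q4 : 0 < (z'.1 - y.1) ^ 2 + (z'.2 + y.2) ^ 2 := by positivity
  have f1 := log_sq_diff (e := e) q1 q2 (by rwa [sub_sub_sub_cancel_right])
    (by rwa [sub_sub_sub_cancel_right])
  have f2 := log_sq_diff (e := e) q3 q4 (by rwa [sub_sub_sub_cancel_right])
    (by rwa [add_sub_add_right_eq_sub])
  have r1 : 1 / Real.sqrt ((z.1 - y.1) ^ 2 + (z.2 + y.2) ^ 2) ≤
      1 / Real.sqrt ((z.1 - y.1) ^ 2 + (z.2 - y.2) ^ 2) := by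
    refine one_div_le_one_div_of_le (Real.sqrt_pos.2 q1) (Real.sqrt_le_sqrt ?_)
    nlinarith [mul_nonneg hz2 hy2.le]
  have r2 : 1 / Real.sqrt ((z'.1 - y.1) ^ 2 + (z'.2 + y.2) ^ 2) ≤
      1 / Real.sqrt ((z'.1 - y.1) ^ 2 + (z'.2 - y.2) ^ 2) := by
    refine one_div_le_one_div_of_le (Real.sqrt_pos.2 q2) (Real.sqrt_le_sqrt ?_)
    nlinarith [mul_nonneg hz2' hy2.le]
  have hG : G z y - G z' y = ((Real.log ((z.1 - y.1) ^ 2 + (z.2 + y.2) ^ 2) -
      Real.log ((z'.1 - y.1) ^ 2 + (z'.2 + y.2) ^ 2)) -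
      (Real.log ((z.1 - y.1) ^ 2 + (z.2 - y.2) ^ 2) -
      Real.log ((z'.1 - y.1) ^ 2 + (z'.2 - y.2) ^ 2))) / (4 * Real.pi) := by
    unfold G
    rw [Real.log_div q3.ne' q1.ne', Real.log_div q4.ne' q2.ne']
    ring
  rw [hG, abs_div, abs_of_pos (show (0 : ℝ) < 4 * Real.pi by positivity),
    div_le_iff₀ (show (0 : ℝ) < 4 * Real.pi by positivity)]
  refine (abs_sub _ _).trans ((add_le_add f2 f1).trans ?_)
  have hs : (1 / Real.sqrt ((z.1 - y.1) ^ 2 + (z.2 + y.2) ^ 2) +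
      1 / Real.sqrt ((z'.1 - y.1) ^ 2 + (z'.2 + y.2) ^ 2)) +
      (1 / Real.sqrt ((z.1 - y.1) ^ 2 + (z.2 - y.2) ^ 2) +
      1 / Real.sqrt ((z'.1 - y.1) ^ 2 + (z'.2 - y.2) ^ 2)) ≤
      2 * (B1 (2 * n) z y + B1 (2 * n) z' y) := by linarith
  have hpi : (2 / Real.pi) * e * (B1 (2 * n) z y + B1 (2 * n) z' y) * (4 * Real.pi) =
      4 * e * (2 * (B1 (2 * n) z y + B1 (2 * n) z' y)) := by
    have := Real.pi_ne_zero
    field_simp
  rw [hpi, ← mul_add]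
  exact mul_le_mul_of_nonneg_left hs (by positivity)

theorem null_fst (a : ℝ) : volume {y : ℝ × ℝ | a - y.1 = 0} = 0 := by
  have : {y : ℝ × ℝ | a - y.1 = 0} = {a} ×ˢ univ := by
    ext y
    simp only [mem_ofPred_eq, mem_prod, mem_singleton_iff, mem_univ, and_true]
    constructor
    · intro h; linarith
    · intro h; linarith
  rw [this, Measure.volume_eq_prod, Measure.prod_prod]
  simp

theorem null_snd (a : ℝ) : volume {y : ℝ × ℝ | a - y.2 = 0} = 0 := by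
  have : {y : ℝ × ℝ | a - y.2 = 0} = univ ×ˢ {a} := by
    ext y
    simp only [mem_ofPred_eq, mem_prod, mem_singleton_iff, mem_univ, true_and]
    constructor
    · intro h; linarith
    · intro h; linarith
  rw [this, Measure.volume_eq_prod, Measure.prod_prod]
  simp

end VD.M_F0

namespace VD

/-- Lipschitz bound of the stream function -/
theorem mF0 (hK0 : StK0) (hK1 : StK1) (hK2 : StK2) : StF0 := by
  intro n hn
  set J := (∫ a, M_F0.h1 (2 * n) a) ^ 2 with hJ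
  refine ⟨(2 / Real.pi) * (J + J), ?_⟩
  intro A hA hAn z z' hz1 hz2 hz3 hz1' hz2' hz3'
  have hR : 0 ≤ 2 * n := by linarith
  have hOm : A ⊆ Om := hAn.trans (Box_subset_Om n)
  have i1 := (hK2 A hA hOm (vol_lt_top hAn) z hz2).1
  have i2 := (hK2 A hA hOm (vol_lt_top hAn) z' hz2').1
  have e1 : z.2 * phi A z - z'.2 * phi A z' = ∫ y in A, (G z y - G z' y) := by
    unfold phi
    rw [← integral_const_mul, ← integral_const_mul, ← integral_sub (i1.const_mul _) (i2.const_mul _)]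
    simp only [M_F0.mul_N]
  rw [e1]
  have hae : ∀ a : ℝ, ∀ᵐ y : ℝ × ℝ ∂(volume.restrict A), a - y.1 ≠ 0 := fun a =>
    ae_restrict_of_ae (by rw [ae_iff]; simpa using M_F0.null_fst a)
  have hae' : ∀ a : ℝ, ∀ᵐ y : ℝ × ℝ ∂(volume.restrict A), a - y.2 ≠ 0 := fun a =>
    ae_restrict_of_ae (by rw [ae_iff]; simpa using M_F0.null_snd a)
  have b1 := M_F0.B1_int hR z
  have b2 := M_F0.B1_int hR z'
  have hb := ((b1.add b2).const_mul ((2 / Real.pi) * ‖z - z'‖))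
  have h1 : ‖∫ y in A, (G z y - G z' y)‖ ≤ ∫ y in A,
      (2 / Real.pi) * ‖z - z'‖ * (M_F0.B1 (2 * n) z y + M_F0.B1 (2 * n) z' y) := by
    refine norm_integral_le_of_norm_le hb.integrableOn ?_
    filter_upwards [hae z.1, hae' z.2, hae z'.1, hae' z'.2, ae_restrict_mem hA] with y h1 h2 h3 h4 hy
    have hyB := hAn hy
    rw [Real.norm_eq_abs]
    exact M_F0.G_diff hz1 hz2 hz3 hz1' hz2' hz3' hyB.1 hyB.2.1 hyB.2.2 h1 h2 h3 h4
  rw [Real.norm_eq_abs] at h1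
  refine h1.trans ?_
  refine (setIntegral_le_integral hb ?_).trans ?_
  · refine ae_of_all _ fun y => ?_
    have := M_F0.B1_nonneg (2 * n) z y
    have := M_F0.B1_nonneg (2 * n) z' y
    show 0 ≤ (2 / Real.pi) * ‖z - z'‖ * (M_F0.B1 (2 * n) z y + M_F0.B1 (2 * n) z' y)
    positivity
  · rw [integral_const_mul, integral_add' b1 b2, M_F0.B1_integral, M_F0.B1_integral, ← hJ]
    exact le_of_eq (by ring)

end VD
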