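import Pool.Agent.Helper50.VD.St

open MeasureTheory Set Filter Topology
open scoped ENNReal

noncomputable section

namespace VD.M_F1

/-- the closed box as a product of subtypes -/
abbrev KB (n : ℝ) : Type := (Icc (-n) n) × (Icc (0 : ℝ) n)

theorem lips {n C : ℝ} {A : Set (ℝ × ℝ)}
    (h : ∀ z z' : ℝ × ℝ, |z.1| ≤ n → 0 ≤ z.2 → z.2 ≤ n → |z'.1| ≤ n → 0 ≤ z'.2 → z'.2 ≤ n →
      |z.2 * phi A z - z'.2 * phi A z'| ≤ C * ‖z - z'‖) (p q : KB n) :
    |(p.2 : ℝ) * phi A (p.1, p.2) - (q.2 : ℝ) * phi A (q.1, q.2)| ≤ C * dist p q := by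
  have h1 := h ((p.1 : ℝ), (p.2 : ℝ)) ((q.1 : ℝ), (q.2 : ℝ)) (abs_le.2 p.1.2) p.2.2.1 p.2.2.2
    (abs_le.2 q.1.2) q.2.2.1 q.2.2.2
  rw [← dist_eq_norm] at h1
  exact h1

end VD.M_F1

namespace VD

/-- compactness (Arzela-Ascoli on the closed box) -/
theorem mF1 (hF0 : StF0) : StF1 := by
  intro n hn A hA
  obtain ⟨C0, hC0⟩ := hF0 n hn
  -- a nonnegative constant
  set C := max C0 0 with hC
  have hCn : 0 ≤ C := le_max_right _ _
  have hlip : ∀ k, ∀ p q : M_F1.KB n,
      |(p.2 : ℝ) * phi (A k) (p.1, p.2) - (q.2 : ℝ) * phi (A k) (q.1, q.2)| ≤ C * dist p q := by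
    intro k p q
    exact (M_F1.lips (hC0 (A k) (hA k).1 (hA k).2) p q).trans
      (mul_le_mul_of_nonneg_right (le_max_left _ _) dist_nonneg)
  have hcont : ∀ k, Continuous fun p : M_F1.KB n => (p.2 : ℝ) * phi (A k) (p.1, p.2) := by
    intro k
    have : LipschitzWith (Real.toNNReal C) fun p : M_F1.KB n => (p.2 : ℝ) * phi (A k) (p.1, p.2) := by
      refine LipschitzWith.of_dist_le_mul fun p q => ?_
      rw [Real.dist_eq, Real.coe_toNNReal _ hCn]
      exact hlip k p q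
    exact this.continuous
  let F : ℕ → BoundedContinuousFunction (M_F1.KB n) ℝ := fun k =>
    BoundedContinuousFunction.mkOfCompact ⟨_, hcont k⟩
  have hF : ∀ k (p : M_F1.KB n), F k p = (p.2 : ℝ) * phi (A k) (p.1, p.2) := fun k p => rfl
  have hbd : ∀ k (p : M_F1.KB n), |F k p| ≤ C * n := by
    intro k p
    have h0 : (0 : ℝ) ∈ Icc (0 : ℝ) n := ⟨le_rfl, hn.le⟩
    have h1 := hlip k p (p.1, ⟨0, h0⟩)
    rw [hF]
    simp only [zero_mul, sub_zero] at h1
    refine h1.trans (mul_le_mul_of_nonneg_left ?_ hCn)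
    rw [Prod.dist_eq, dist_self]
    refine max_le hn.le ?_
    rw [Subtype.dist_eq, Real.dist_eq]
    simp only [sub_zero]
    rw [abs_of_nonneg p.2.2.1]
    exact p.2.2.2
  have hcomp : IsCompact (closure (Set.range F)) := by
    refine BoundedContinuousFunction.arzela_ascoli (Icc (-(C * n)) (C * n)) isCompact_Icc
      (Set.range F) ?_ ?_
    · rintro f x ⟨k, rfl⟩
      exact abs_le.1 (hbd k x)
    · refine Metric.equicontinuous_of_continuity_modulus (fun t => C * t) ?_ _ ?_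
      · have : Tendsto (fun t : ℝ => C * t) (𝓝 0) (𝓝 (C * 0)) :=
          (continuous_const.mul continuous_id).tendsto 0
        simpa using this
      · rintro x y ⟨f, k, rfl⟩
        rw [Real.dist_eq]
        exact hlip k x y
  obtain ⟨a, -, s, hs, hlim⟩ := hcomp.tendsto_subseq (x := F)
    fun k => subset_closure (Set.mem_range_self k)
  have h1n : -n ≤ n := by linarith
  refine ⟨fun z => a (projIcc (-n) n h1n z.1, projIcc 0 n hn.le z.2), s, ?_, ⟨‖a‖, ?_⟩, hs, ?_⟩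
  · refine Continuous.measurable ?_
    exact a.continuous.comp (((continuous_projIcc).comp continuous_fst).prodMk
      ((continuous_projIcc).comp continuous_snd))
  · intro z
    have := a.norm_coe_le_norm (projIcc (-n) n h1n z.1, projIcc 0 n hn.le z.2)
    rwa [Real.norm_eq_abs] at this
  · intro ε hε
    have h2 : ∀ᶠ k in atTop, dist (F (s k)) a < ε :=
      (Metric.tendsto_nhds.1 hlim) ε hε
    filter_upwards [h2] with k hk z hz
    have hz1 : z.1 ∈ Icc (-n) n := abs_le.1 hz.1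
    have hz2 : z.2 ∈ Icc (0 : ℝ) n := ⟨hz.2.1.le, hz.2.2⟩
    have h3 := (BoundedContinuousFunction.dist_coe_le_dist
      (f := F (s k)) (g := a) (⟨z.1, hz1⟩, ⟨z.2, hz2⟩)).trans hk.le
    rw [Real.dist_eq, hF] at h3
    have e1 : projIcc (-n) n h1n z.1 = ⟨z.1, hz1⟩ := projIcc_of_mem h1n hz1
    have e2 : projIcc 0 n hn.le z.2 = ⟨z.2, hz2⟩ := projIcc_of_mem hn.le hz2
    rw [e1, e2]
    exact h3

end VD
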