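import Pool.Agent.Helper50.VD.St

open MeasureTheory Set Filter Topology
open scoped ENNReal

noncomputable section

namespace VD.M_F3

/-- closeness of the two integrals -/
theorem int_close {n : ℝ} {B C : Set (ℝ × ℝ)} (hB : MeasurableSet B) (hBn : B ⊆ Box n)
    {ψ : ℝ × ℝ → ℝ} (hψ : IntegrableOn ψ B)
    (hint : IntegrableOn (fun z : ℝ × ℝ => z.2 * phi C z) B) {ε : ℝ} (hε : 0 ≤ ε)
    (h : ∀ z ∈ Box n, |z.2 * phi C z - ψ z| ≤ ε) :
    |BG B C - ∫ z in B, ψ z| ≤ ε * (volume (Box n)).toReal := by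
  have hlt : volume B < ∞ := vol_lt_top hBn
  unfold BG
  rw [← integral_sub hint hψ]
  have h1 : ‖∫ z in B, (z.2 * phi C z - ψ z)‖ ≤ ε * (volume B).toReal := by
    have := norm_setIntegral_le_of_norm_le_const (μ := volume) (s := B) (C := ε)
      (f := fun z : ℝ × ℝ => z.2 * phi C z - ψ z) hlt
      (fun z hz => by rw [Real.norm_eq_abs]; exact h z (hBn hz))
    simpa [Measure.real] using this
  rw [Real.norm_eq_abs] at h1
  refine h1.trans (mul_le_mul_of_nonneg_left ?_ hε)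
  exact ENNReal.toReal_mono (volume_Box_lt_top n).ne (measure_mono hBn)

end VD.M_F3

namespace VD

/-- existence of maximisers in a box -/
theorem mF3 (hK0 : StK0) (hK1 : StK1) (hK2 : StK2) (hK9 : StK9) (hE7 : StE7) (hF0 : StF0) (hF1 : StF1) (hF2 : StF2) : StF3 := by
  intro n c hn hc
  -- the set of energies
  have hcls : ∀ A, MeasurableSet A → A ⊆ Box n → nu A = c →
      Cls (Box n) c (volume (Box n) + 1) A := fun A h1 h2 h3 =>
    ⟨h1, h2, h3, (measure_mono h2).trans le_self_add⟩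
  have hdata : ∀ A, MeasurableSet A → A ⊆ Box n → A ⊆ Om ∧ volume A < ∞ ∧ nu A < ∞ :=
    fun A _ h2 => ⟨h2.trans (Box_subset_Om n), vol_lt_top h2, nu_lt_top h2⟩
  have hint : ∀ A C, MeasurableSet A → A ⊆ Box n → MeasurableSet C → C ⊆ Box n →
      IntegrableOn (fun z : ℝ × ℝ => z.2 * phi C z) A ∧ 0 ≤ BG A C := by
    intro A C hA hAn hC hCn
    obtain ⟨a1, a2, a3⟩ := hdata A hA hAn
    obtain ⟨c1, c2, c3⟩ := hdata C hC hCn
    have := hK9.1 A C hA hC a1 c1 a2 c2 a3 c3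
    exact ⟨this.1, this.2.2.1⟩
  set V := (volume (Box n)).toReal with hV
  have hV0 : 0 ≤ V := ENNReal.toReal_nonneg
  have hbdd : ∀ A, MeasurableSet A → A ⊆ Box n → BG A A ≤ n * (4 * Real.sqrt V) * V := by
    intro A hA hAn
    obtain ⟨a1, a2, a3⟩ := hdata A hA hAn
    have h1 : ∀ z ∈ A, ‖z.2 * phi A z‖ ≤ n * (4 * Real.sqrt V) := by
      intro z hz
      obtain ⟨-, p1, p2, -⟩ := hK2 A hA a1 a2 z (show (0 : ℝ) < z.2 from a1 hz).le
      have h2 : 0 < z.2 := a1 hz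
      have h3 : z.2 ≤ n := (hAn hz).2.2
      rw [Real.norm_eq_abs, abs_of_nonneg (mul_nonneg h2.le p1)]
      refine mul_le_mul h3 (p2.trans ?_) p1 hn.le
      refine mul_le_mul_of_nonneg_left (Real.sqrt_le_sqrt ?_) (by norm_num)
      exact ENNReal.toReal_mono (volume_Box_lt_top n).ne (measure_mono hAn)
    have h4 := norm_setIntegral_le_of_norm_le_const (μ := volume) (s := A) a2 h1
    have h5 : BG A A ≤ n * (4 * Real.sqrt V) * (volume A).toReal := by
      refine (le_abs_self _).trans ?_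
      rw [← Real.norm_eq_abs]
      exact h4
    refine h5.trans (mul_le_mul_of_nonneg_left ?_ (by positivity))
    exact ENNReal.toReal_mono (volume_Box_lt_top n).ne (measure_mono hAn)
  set S : Set ℝ := {e | ∃ A, MeasurableSet A ∧ A ⊆ Box n ∧ nu A = c ∧ BG A A = e} with hS
  have hSne : S.Nonempty := by
    obtain ⟨A, h1, h2, h3, -⟩ := hF2 n (fun _ => 0) c hn measurable_const ⟨0, fun z => by simp⟩ hc
    exact ⟨BG A A, A, h1, h2, h3, rfl⟩
  have hSb : BddAbove S := by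
    refine ⟨n * (4 * Real.sqrt V) * V, ?_⟩
    rintro e ⟨A, h1, h2, -, rfl⟩
    exact hbdd A h1 h2
  set M := sSup S with hM
  -- maximising sequence
  have hseq : ∀ k : ℕ, ∃ A, MeasurableSet A ∧ A ⊆ Box n ∧ nu A = c ∧ M - 1 / ((k : ℝ) + 1) < BG A A := by
    intro k
    obtain ⟨e, ⟨A, h1, h2, h3, rfl⟩, he⟩ := exists_lt_of_lt_csSup hSne
      (show M - 1 / ((k : ℝ) + 1) < M by
        have : 0 < 1 / ((k : ℝ) + 1) := by positivity
        linarith)
    exact ⟨A, h1, h2, h3, he⟩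
  choose A hAm hAn hAc hAM using hseq
  obtain ⟨ψ, s, hψm, ⟨B, hψB⟩, hs, hconv⟩ := hF1 n hn A fun k => ⟨hAm k, hAn k⟩
  obtain ⟨A', hA'm, hA'n, hA'c, hmax⟩ := hF2 n ψ c hn hψm ⟨B, hψB⟩ hc
  have hψint : ∀ D, MeasurableSet D → D ⊆ Box n → IntegrableOn ψ D := by
    intro D hD hDn
    refine Measure.integrableOn_of_bounded (M := B) (hdata D hD hDn).2.1.ne
      hψm.aestronglyMeasurable ?_
    exact ae_of_all _ fun z => by rw [Real.norm_eq_abs]; exact hψB z
  have hM0 : 0 ≤ M := by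
    obtain ⟨e, A0, h1, h2, h3, rfl⟩ := hSne
    exact (hint A0 A0 h1 h2 h1 h2).2.trans (le_csSup hSb ⟨A0, h1, h2, h3, rfl⟩)
  have hle : ∀ D, MeasurableSet D → D ⊆ Box n → nu D = c → BG D D ≤ M :=
    fun D h1 h2 h3 => le_csSup hSb ⟨D, h1, h2, h3, rfl⟩
  -- key inequality
  have hkey : M ≤ Real.sqrt (BG A' A' * M) := by
    refine le_of_forall_pos_le_add fun δ hδ => ?_
    set ε := δ / (2 * V + 1) with hε
    have hε0 : 0 < ε := by positivity
    have h1 := hconv ε hε0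
    have h2 : ∀ᶠ k : ℕ in atTop, 1 / ((s k : ℝ) + 1) < ε := by
      have h3 : Tendsto (fun k : ℕ => 1 / ((s k : ℝ) + 1)) atTop (𝓝 0) :=
        tendsto_one_div_add_atTop_nhds_zero_nat.comp hs.tendsto_atTop
      exact h3.eventually (gt_mem_nhds hε0)
    obtain ⟨k, hk1, hk2⟩ := (h1.and h2).exists
    have e1 := M_F3.int_close (hAm (s k)) (hAn (s k)) (hψint _ (hAm _) (hAn _))
      (hint _ _ (hAm _) (hAn _) (hAm _) (hAn _)).1 hε0.le hk1
    have e2 := M_F3.int_close hA'm hA'n (hψint _ hA'm hA'n)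
      (hint _ _ hA'm hA'n (hAm (s k)) (hAn (s k))).1 hε0.le hk1
    have e3 := hmax (A (s k)) (hAm _) (hAn _) (hAc _)
    have e4 := hAM (s k)
    have e5 : BG A' (A (s k)) ≤ Real.sqrt (BG A' A' * M) := by
      refine Real.le_sqrt_of_sq_le ?_
      have := (hE7 A' (A (s k)) hA'm (hAm _) (hdata _ hA'm hA'n).1 (hdata _ (hAm _) (hAn _)).1
        ⟨n, hA'n⟩ ⟨n, hAn _⟩).2
      refine this.trans (mul_le_mul_of_nonneg_left (hle _ (hAm _) (hAn _) (hAc _)) ?_)
      exact (hint _ _ hA'm hA'n hA'm hA'n).2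
    rw [abs_le] at e1 e2
    have e6 : ε * (2 * V + 1) = δ := by rw [hε]; field_simp
    have e7 : ε * V + ε * V + ε = δ := by rw [← e6]; ring
    linarith [e1.1, e1.2, e2.1, e2.2]
  have hfin : M ≤ BG A' A' := by
    have h0 : 0 ≤ BG A' A' := (hint _ _ hA'm hA'n hA'm hA'n).2
    rcases hM0.eq_or_lt with h | h
    · rw [← h]; exact h0
    · have h1 : M ^ 2 ≤ BG A' A' * M := by
        have := pow_le_pow_left₀ hM0 hkey 2
        rwa [Real.sq_sqrt (mul_nonneg h0 hM0)] at this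
      nlinarith
  exact ⟨A', hcls A' hA'm hA'n hA'c, fun D hD => (hle D hD.1 hD.2.1 hD.2.2.1).trans hfin⟩

end VD
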